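import Pool.Agent.Lib.MP_f234cd_al.Affine

set_option autoImplicit false

open Pool.Agent.Lib.MP_f234cd_al

namespace Pool.Agent.Results.MP_f234cd_al.SetStabiliserGrowth

/-- Positive answer to Q1: there are an infinite set `X` of integers `k ≥ 2` and constants
`c > 1`, `C > 0` with `k! / τ'(k) ≥ C k ^ c` for every `k ∈ X`.
(The proof takes `X` = the primes, `c = 2`, `C = 1 / 2`.) -/
theorem result : ∃ X : Set ℕ, X.Infinite ∧ (∀ k ∈ X, 2 ≤ k) ∧ ∃ c C : ℝ, 1 < c ∧ 0 < C ∧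
    ∀ k ∈ X, C * (k : ℝ) ^ c ≤ (k.factorial : ℝ) / (tauPrime k : ℝ) := by
  refine ⟨{p | p.Prime}, Nat.infinite_setOfPred_prime, fun k hk => Nat.Prime.two_le hk, 2, 1 / 2,
    by norm_num, by norm_num, ?_⟩
  intro p hp
  have : Fact p.Prime := ⟨hp⟩
  obtain ⟨h1, h2⟩ := prime_bound p
  have h2p : 2 ≤ p := Nat.Prime.two_le hp
  have h1' : (0 : ℝ) < (tauPrime p : ℝ) := by exact_mod_cast h1
  rw [le_div_iff₀ h1']
  have h3 : (tauPrime p : ℝ) * (((p : ℝ) - 1) * p) ≤ (p.factorial : ℝ) := by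
    have h4 : ((tauPrime p * ((p - 1) * p) : ℕ) : ℝ) ≤ (p.factorial : ℝ) := by exact_mod_cast h2
    rw [Nat.cast_mul, Nat.cast_mul, Nat.cast_sub (by omega), Nat.cast_one] at h4
    exact h4
  have hp2 : (2 : ℝ) ≤ (p : ℝ) := by exact_mod_cast h2p
  have h5 : (p : ℝ) ^ (2 : ℝ) = (p : ℝ) * p := by
    rw [Real.rpow_two, sq]
  rw [h5]
  have h6 : 1 / 2 * ((p : ℝ) * p) ≤ ((p : ℝ) - 1) * p := by nlinarith
  calc 1 / 2 * ((p : ℝ) * p) * (tauPrime p : ℝ)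
      ≤ (((p : ℝ) - 1) * p) * (tauPrime p : ℝ) := by
        exact mul_le_mul_of_nonneg_right h6 h1'.le
    _ = (tauPrime p : ℝ) * (((p : ℝ) - 1) * p) := by ring
    _ ≤ (p.factorial : ℝ) := h3

end Pool.Agent.Results.MP_f234cd_al.SetStabiliserGrowth
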